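import Pool.Agent.helper97.KR.Spec

/-! # KR, row G4: the situation at a vertex of degree 4 -/

set_option autoImplicit false

namespace Pool.Agent.helper97.KR

open Finset Classical

noncomputable section

theorem G4_edge {V E : Type} (ends : E → Sym2 V) (F : Set E) (v w : V) (hvw : v ≠ w)
    (h : Relation.ReflTransGen (Jn ends F) v w) : ∃ e ∈ F, v ∈ ends e := by
  rcases Relation.ReflTransGen.cases_head h with h | ⟨c, ⟨e, he, hec⟩, -⟩
  · exact absurd h hvw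
  · exact ⟨e, he, by rw [hec]; exact Sym2.mem_mk_left _ _⟩

theorem G4_num (n : Fin 3 → ℕ) (h1 : ∀ i, 1 ≤ n i) (h4 : n 0 + n 1 + n 2 = 4) :
    ∃ σ : Equiv.Perm (Fin 3), n (σ 0) = 2 ∧ n (σ 1) = 1 ∧ n (σ 2) = 1 := by
  have a0 := h1 0
  have a1 := h1 1
  have a2 := h1 2
  have hc : (n 0 = 2 ∧ n 1 = 1 ∧ n 2 = 1) ∨ (n 0 = 1 ∧ n 1 = 2 ∧ n 2 = 1) ∨
      (n 0 = 1 ∧ n 1 = 1 ∧ n 2 = 2) := by omega
  rcases hc with h | h | h
  · exact ⟨1, h.1, h.2.1, h.2.2⟩
  · refine ⟨Equiv.swap 0 1, ?_, ?_, ?_⟩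
    · rw [Equiv.swap_apply_left]; exact h.2.1
    · rw [Equiv.swap_apply_right]; exact h.1
    · rw [Equiv.swap_apply_of_ne_of_ne (by decide) (by decide)]; exact h.2.2
  · refine ⟨Equiv.swap 0 2, ?_, ?_, ?_⟩
    · rw [Equiv.swap_apply_left]; exact h.2.2
    · rw [Equiv.swap_apply_of_ne_of_ne (by decide) (by decide)]; exact h.2.1
    · rw [Equiv.swap_apply_right]; exact h.1

theorem G4 (hLP : LP_stmt) : G4_stmt := by
  intro V E ends S F v g hvS hd
  obtain ⟨T, hc, hcon, hdis, hun⟩ := g.tr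
  have hsub : ∀ i, ∀ e ∈ T i, ∀ w ∈ ends e, w ∈ S := fun i e he w hw =>
    g.sub e ((hun e).2 ⟨i, he⟩) w hw
  -- another vertex
  have hw : ∃ w ∈ S, v ≠ w := by
    have hpos : 0 < (F.filter fun e => v ∈ ends e).card := by
      unfold dgr at hd; rw [hd]; norm_num
    obtain ⟨e, he⟩ := Finset.card_pos.1 hpos
    rw [Finset.mem_filter] at he
    obtain ⟨w, hw⟩ := Sym2.mem_iff_exists.1 he.2
    refine ⟨w, g.sub e he.1 w (by rw [hw]; exact Sym2.mem_mk_right _ _), ?_⟩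
    rintro rfl
    exact g.loop e he.1 (by rw [hw]; exact rfl)
  obtain ⟨w, hwS, hvw⟩ := hw
  set A : Fin 3 → Finset E := fun i => (T i).filter fun e => v ∈ ends e with hA
  have hA1 : ∀ i, 1 ≤ (A i).card := by
    intro i
    obtain ⟨e, he, hve⟩ := G4_edge ends (T i : Set E) v w hvw (hcon i v hvS w hwS)
    exact Finset.card_pos.2 ⟨e, Finset.mem_filter.2 ⟨by simpa using he, hve⟩⟩
  have hdisA : ∀ i j, i ≠ j → Disjoint (A i) (A j) := fun i j hij =>
    Finset.disjoint_filter_filter (hdis i j hij)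
  have hsum : (A 0).card + (A 1).card + (A 2).card = 4 := by
    have hF : (F.filter fun e => v ∈ ends e) = (A 0 ∪ A 1) ∪ A 2 := by
      ext e
      simp only [hA, Finset.mem_filter, Finset.mem_union]
      constructor
      · rintro ⟨he, hve⟩
        obtain ⟨i, hi⟩ := (hun e).1 he
        fin_cases i
        · exact Or.inl (Or.inl ⟨hi, hve⟩)
        · exact Or.inl (Or.inr ⟨hi, hve⟩)
        · exact Or.inr ⟨hi, hve⟩
      · rintro ((⟨h, hve⟩ | ⟨h, hve⟩) | ⟨h, hve⟩)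
        · exact ⟨(hun e).2 ⟨0, h⟩, hve⟩
        · exact ⟨(hun e).2 ⟨1, h⟩, hve⟩
        · exact ⟨(hun e).2 ⟨2, h⟩, hve⟩
    have h01 : Disjoint (A 0) (A 1) := hdisA 0 1 (by decide)
    have h012 : Disjoint (A 0 ∪ A 1) (A 2) := by
      rw [Finset.disjoint_union_left]
      exact ⟨hdisA 0 2 (by decide), hdisA 1 2 (by decide)⟩
    unfold dgr at hd
    rw [hF, Finset.card_union_of_disjoint h012, Finset.card_union_of_disjoint h01] at hd
    exact hd
  obtain ⟨σ, hs0, hs1, hs2⟩ := G4_num (fun i => (A i).card) hA1 hsum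
  obtain ⟨x1, x2, h12, hA0⟩ := Finset.card_eq_two.1 hs0
  obtain ⟨u2, hu2⟩ := Finset.card_eq_one.1 hs1
  obtain ⟨u3, hu3⟩ := Finset.card_eq_one.1 hs2
  have m1 : x1 ∈ T (σ 0) ∧ v ∈ ends x1 := by
    have : x1 ∈ A (σ 0) := by rw [hA0]; simp
    exact Finset.mem_filter.1 this
  have m2 : x2 ∈ T (σ 0) ∧ v ∈ ends x2 := by
    have : x2 ∈ A (σ 0) := by rw [hA0]; simp
    exact Finset.mem_filter.1 this
  have m3 : u2 ∈ T (σ 1) ∧ v ∈ ends u2 := by
    have : u2 ∈ A (σ 1) := by rw [hu2]; simp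
    exact Finset.mem_filter.1 this
  have m4 : u3 ∈ T (σ 2) ∧ v ∈ ends u3 := by
    have : u3 ∈ A (σ 2) := by rw [hu3]; simp
    exact Finset.mem_filter.1 this
  have s01 : σ 0 ≠ σ 1 := fun h => absurd (σ.injective h) (by decide)
  have s02 : σ 0 ≠ σ 2 := fun h => absurd (σ.injective h) (by decide)
  have s12 : σ 1 ≠ σ 2 := fun h => absurd (σ.injective h) (by decide)
  have hne : ∀ i j : Fin 3, i ≠ j → ∀ x y : E, x ∈ T i → y ∈ T j → x ≠ y := by
    intro i j hij x y hx hy hxy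
    subst hxy
    exact Finset.disjoint_left.1 (hdis i j hij) hx hy
  obtain ⟨a, ha⟩ := Sym2.mem_iff_exists.1 m1.2
  obtain ⟨b, hb⟩ := Sym2.mem_iff_exists.1 m2.2
  have x1F : x1 ∈ F := (hun x1).2 ⟨_, m1.1⟩
  have x2F : x2 ∈ F := (hun x2).2 ⟨_, m2.1⟩
  have u2F : u2 ∈ F := (hun u2).2 ⟨_, m3.1⟩
  have u3F : u3 ∈ F := (hun u3).2 ⟨_, m4.1⟩
  have haS : a ∈ S := g.sub x1 x1F a (by rw [ha]; exact Sym2.mem_mk_right _ _)
  have hbS : b ∈ S := g.sub x2 x2F b (by rw [hb]; exact Sym2.mem_mk_right _ _)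
  have hav : a ≠ v := by
    rintro rfl
    exact g.loop x1 x1F (by rw [ha]; exact rfl)
  have hbv : b ≠ v := by
    rintro rfl
    exact g.loop x2 x2F (by rw [hb]; exact rfl)
  have hab : a ≠ b := by
    rintro rfl
    exact h12 ((hLP V E ends S (T (σ 0)) (hsub (σ 0)) (hcon (σ 0)) (hc (σ 0))).2 x1 m1.1 x2 m2.1
      (ha.trans hb.symm))
  refine ⟨a, b, x1, x2, u2, u3, ⟨g, hvS, haS, hbS, hab, hav, hbv, h12, hne _ _ s01 _ _ m1.1 m3.1,
    hne _ _ s02 _ _ m1.1 m4.1, hne _ _ s01 _ _ m2.1 m3.1, hne _ _ s02 _ _ m2.1 m4.1,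
    hne _ _ s12 _ _ m3.1 m4.1, ?_, ha, hb⟩, fun i => T (σ i), fun i => hc _, fun i => hcon _,
    fun i j hij => hdis _ _ (fun h => hij (σ.injective h)), ?_, m1.1, m2.1, m3.1, m4.1⟩
  · intro e
    constructor
    · rintro ⟨he, hve⟩
      obtain ⟨i, hi⟩ := (hun e).1 he
      obtain ⟨j, rfl⟩ := σ.surjective i
      have hj : e ∈ A (σ j) := Finset.mem_filter.2 ⟨hi, hve⟩
      fin_cases j
      · have : e ∈ A (σ 0) := hj
        rw [hA0] at this
        simp only [Finset.mem_insert, Finset.mem_singleton] at this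
        tauto
      · have : e ∈ A (σ 1) := hj
        rw [hu2] at this
        simp only [Finset.mem_singleton] at this
        tauto
      · have : e ∈ A (σ 2) := hj
        rw [hu3] at this
        simp only [Finset.mem_singleton] at this
        tauto
    · rintro (rfl | rfl | rfl | rfl)
      · exact ⟨x1F, m1.2⟩
      · exact ⟨x2F, m2.2⟩
      · exact ⟨u2F, m3.2⟩
      · exact ⟨u3F, m4.2⟩
  · intro e
    rw [hun e]
    constructor
    · rintro ⟨i, hi⟩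
      exact ⟨σ.symm i, by simpa using hi⟩
    · rintro ⟨i, hi⟩
      exact ⟨σ i, hi⟩

end

end Pool.Agent.helper97.KR
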